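import Mathlib
import Pool.Agent.T2h79.XM.CG

/-!
# A criterion for the modularity of all elliptic curves over an imaginary quadratic field

Caraiani and Newton (On the modularity of elliptic curves over imaginary quadratic fields,
arXiv 2301.10509) proved that every elliptic curve over an imaginary quadratic field `K` is modular
if the group `X_0(15)(K)` is finite. We show:

**If `3` is not inert in `K`, `5` is not split in `K`, and the ideal class group of `K` has no element
of order `4`, then `X_0(15)(K)` is finite.**

So the arithmetic of the elliptic curve is replaced by the one of the class group; the fields in question
can be read off from the symbols between the prime divisors of the discriminant. The condition on the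
class group holds for instance if the class number is odd or two times odd, or if the class group is
of exponent two; but it also holds for fields with arbitrarily many ramified primes. Here `3` is inert if
and only if the discriminant is `2` modulo `3`, and `5` is split if and only if it is `1` or `4` modulo
`5`. (If exactly one of the conditions `3` is not inert, `5` is not split is violated, then the root number
of `X_0(15)` over `K` is `-1`.) For the proportion of the fields see `X015Density`.

Proof. Let `-m` be the squarefree integer with `K = ℚ(√-m)`. The group `X_0(15)(K)` is finite if the
curve `y² = x (x + 9 m) (x + 25 m)` has rank `0` over `ℚ`. A full 2-descent shows that a nontrivial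
element of its 2-Selmer group gives a factorization of the second kind of the discriminant, in the
sense of Rédei, that is, a vector in the right kernel of the Rédei matrix. The left kernel of the matrix
consists of the ramified ideals whose class is a square, by genus theory (in Lean in the library,
`Pool/Agent/Y755/FK`: helper486, helper688, helper629, helper168). So both kernels are trivial if
there is no class of order four.
-/

set_option autoImplicit false

namespace Pool.Agent.Results.MP_87c685_nt.ClassGroupCriterion

open NumberField
open Pool.Agent.T2h79.XM

/-- **The criterion.** -/
theorem result (K : Type) [Field K] [NumberField K]
    -- `K` is an imaginary quadratic field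
    (h2 : Module.finrank ℚ K = 2) (h0 : discr K < 0)
    -- `3` is not inert
    (h3 : discr K % 3 ≠ 2)
    -- `5` is not split
    (h5 : discr K % 5 ≠ 1 ∧ discr K % 5 ≠ 4)
    -- no class of order four
    (hcl : ∀ x : ClassGroup (𝓞 K), x ^ 4 = 1 → x ^ 2 = 1) :
    Finite (X015 K).toAffine.Point :=
  CG.disc_criterion K h2 h0 h3 h5.1 h5.2 hcl

end Pool.Agent.Results.MP_87c685_nt.ClassGroupCriterion
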