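import Mathlib
import Pool.Agent.T2h79.XM.IS5
import Pool.Agent.T2h1.XB.Main

/-!
# Modularity over an imaginary quadratic field in which `3` is inert and `5` splits

Caraiani and Newton (On the modularity of elliptic curves over imaginary quadratic fields,
arXiv 2301.10509) proved that every elliptic curve over an imaginary quadratic field `K` is modular
if the group `X_0(15)(K)` is finite. The root number of `X_0(15)` over `K` is `+1` in two cases: `3` is
not inert and `5` is not split in `K` (see `ClassGroupCriterion`), or `3` is inert and `5` splits. Here we
treat the second case, where no condition on the class group alone is sufficient. Let `D ≠ -4` be the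
discriminant of `K`. We consider factorizations `D = a b` with `a ≡ 1 mod 4` of two kinds:

* `Sec D a b`: `a` is a square modulo the odd primes which divide `b`, `b` is a square modulo the primes
  which divide `a`, and `a ≡ 1 mod 8` if `D` is even (the factorizations of the second kind of Rédei and
  Reichardt, which give the unramified cyclic extensions of `K` of degree `4`);
* `Fac D a b`: `-3 a` is a square modulo the odd primes which divide `b`, `-3 b` is a square modulo the
  primes which divide `a`, and `a ≡ 5 mod 8` if `D` is even.

Then:

1. **If all the `Sec D a b` with `a ≡ ±1 mod 5` are trivial (`a = 1` or `b = 1`), and all the `Fac D a b`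
   have `a ≡ ±1 mod 5`, then the group `X_0(15)(K)` is finite.** There is no hypothesis on the class
   group. For instance, this is true for `D = -p`, `p` a prime number `19` or `31` modulo `60`.
2. Suppose that the class group of `K` has no element of order `4`. Then there is a `Fac D a b`, it is
   unique up to the order of `a` and `b`, and if `a ≡ ±1 mod 5` then `X_0(15)(K)` is finite. For
   instance, if all the primes which ramify in `K` are `1` modulo `3`, then `a = 1`. Dually, `X_0(15)(K)` is
   finite if `5 c` is the norm of an element of `K` for some squarefree divisor `c ≡ 1 mod 3` of `D`; for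
   instance (`c = 1`) if the primes above `5` lie in the principal genus.

The proof. The curve `y² = x (x + m) (x + 81 m)`, where `K = ℚ(√-m)`, is isogenous to the twist of
`X_0(15)` by `-m`, and its 2-Selmer groups are described by the Rédei matrix `M` of `K` changed by
the matrix `α(q) β(p)` of rank one, where `α(q)` is the symbol of `-3` at `q` and `β(p)` the symbol of
the prime discriminant of `p` at `5`. A vector `x` of the kernel satisfies `M x = (β · x) α`: these are
the two kinds of factorizations, and `β · x` is the symbol of `a` at `5`. If there is no class of order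
`4` the matrix `M` has corank one on both sides, so that `M x = α` has a solution, unique up to the
constants. (helper79; the first part was also found by helper77; the criterion with the norms
is by helper1, `Pool/Agent/T2h1/XB`.)
-/

set_option autoImplicit false

namespace Pool.Agent.Results.MP_87c685_nt.InertSplitCriterion

open NumberField
open Pool.Agent.T2h79.XM
open Pool.Agent.T2h79.XM.IS

/-- **The criterion.** -/
theorem result (K : Type) [Field K] [NumberField K]
    -- `K` is an imaginary quadratic field, not `ℚ(i)`
    (h2 : Module.finrank ℚ K = 2) (h0 : discr K < 0) (h4 : discr K ≠ -4)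
    -- `3` is inert
    (h3 : discr K % 3 = 2)
    -- `5` is split
    (h5 : discr K % 5 = 1 ∨ discr K % 5 = 4) :
    -- the general criterion
    ((∀ a b : ℤ, Sec (discr K) a b → (a % 5 = 1 ∨ a % 5 = 4) → a = 1 ∨ b = 1) →
      (∀ a b : ℤ, Fac (discr K) a b → (a % 5 = 1 ∨ a % 5 = 4)) →
      Finite (X015 K).toAffine.Point) ∧
    -- no class of order four
    ((∀ x : ClassGroup (𝓞 K), x ^ 4 = 1 → x ^ 2 = 1) →
      -- the factorization exists
      (∃ a b : ℤ, Fac (discr K) a b) ∧
      -- it is unique up to the order of the factors
      (∀ a b a' b' : ℤ, Fac (discr K) a b → Fac (discr K) a' b' →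
        (a' = a ∧ b' = b) ∨ (a' = b ∧ b' = a)) ∧
      -- the criterion
      (∀ a b : ℤ, Fac (discr K) a b → (a % 5 = 1 ∨ a % 5 = 4) →
        Finite (X015 K).toAffine.Point) ∧
      -- the dual criterion
      ∀ c : ℕ, Squarefree c → (c : ℤ) ∣ discr K → c % 3 = 1 →
        (∃ u v : ℚ, (5 * c : ℚ) = u ^ 2 - discr K * v ^ 2) →
        Finite (X015 K).toAffine.Point) := by
  refine ⟨fun hA hB => IS.general K h2 h0 h3 h5 h4 hA hB, fun hcl => ?_⟩
  obtain ⟨k1, k2, k3⟩ := IS.main K h2 h0 h3 h5 hcl
  exact ⟨k1 h4, k2, k3, fun c k4 k5 k6 k7 =>
    Pool.Agent.T2h1.XB.disc_criterion K h2 h0 h4 h3 h5 hcl c k4 k5 k6 k7⟩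

end Pool.Agent.Results.MP_87c685_nt.InertSplitCriterion
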