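import Mathlib
import Pool.Agent.T2h79.XM.Main
import Pool.Agent.T2h79.XM.Z.LA
import Pool.Agent.T2h79.XM.Z.BOX
import Pool.Agent.T2h79.XM.Z.KEY
import Pool.Agent.T2h79.XM.Z.Asy
import Pool.Agent.T2h79.XM.Z.Five

/-!
# `X_0(15)` has finitely many points over more than 15 per cent of all imaginary quadratic fields

Caraiani and Newton (On the modularity of elliptic curves over imaginary quadratic fields,
arXiv 2301.10509) proved that **every** elliptic curve over an imaginary quadratic field `K` is
modular if the group `X_0(15)(K)` is finite. We show that this holds for a positive proportion of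
the fields, ordered by the discriminant `-D`. Let `η = ∏_{i ≥ 1} (1 - 2^{-i}) = 0.2888...`.

* (a) The fields in which `3` is not inert and `5` is not split have the density `35/96`, and among
  them `X_0(15)(K)` is finite with lower density at least `η`.
* (b) The fields in which `3` is inert and `5` is split have the density `15/96`, and among them
  `X_0(15)(K)` is finite with lower density at least `η`.
* Hence `X_0(15)(K)` is finite for a set of imaginary quadratic fields with lower density at least
  `25 η / 48 = 0.1504...`.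

The classes (a) and (b) consist of the fields for which the root number of `X_0(15)` over `K` is
`+1`; in all others the rank should be odd.

The rank of `X_0(15)` over `K = ℚ(√-m)` is the rank of the twist
`E : y² = x (x + 9 m) (x + 25 m)` over `ℚ`. This curve has full 2-torsion and cyclic 4-isogenies over
`ℚ`; so the theorems of Heath-Brown, Swinnerton-Dyer, Kane and Smith on the Selmer groups of twists do not
apply, and there is no 3-isogeny for the method of Vatsal, James, Kriz and Li. For (a) a full 2-descent on
`E` shows that the rank is `0` if the Rédei matrix of `K` has the maximal rank (that is, if the class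
group of `K` has no element of order `4`), and the proportion of these fields is `η` (Gerth;
Fouvry and Klüners; in Lean for all discriminants in the starting library). For (b)
we use the 2-isogenous curve `y² = x (x + m) (x + 81 m)`. The rank is now `0` if the Rédei matrix
has the maximal rank after a change by the matrix of rank one `α(q) β(p)`, where `α(q)` is the symbol
of `-3` at `q` and `β(p)` the symbol of the prime discriminant of `p` at `5`. The
changed matrix satisfies another reciprocity law, and we show that the proportion is `η` again.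
-/

set_option autoImplicit false

namespace Pool.Agent.Results.MP_87c685_nt.X015Density

open Filter Topology
open Pool.Agent.T2h79.XM

/-- the proportion of the good sets for the changed Rédei matrices -/
theorem dqz : Z.S_DQz :=
  Z.five (Z.t_DQz'_fin Z.t_LAz Z.t_BOXz Z.KEY.t_KEYz)

/-- **`X_0(15)` has finitely many points over more than 15 per cent of the imaginary quadratic
fields.** -/
theorem result :
    -- (a) `3` not inert, `5` not split
    (Tendsto (fun X : ℕ => (cnt (fun D => Fd D ∧ D % 3 ≠ 1 ∧ D % 5 ≠ 1 ∧ D % 5 ≠ 4) X : ℝ) / cnt Fd X)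
        atTop (𝓝 (35 / 96)) ∧
      ∀ ε : ℝ, 0 < ε → ∀ᶠ X : ℕ in atTop,
        ((∏' i : ℕ, (1 - (1 / 2 : ℝ) ^ (i + 1))) - ε) *
            cnt (fun D => Fd D ∧ D % 3 ≠ 1 ∧ D % 5 ≠ 1 ∧ D % 5 ≠ 4) X ≤
          cnt (fun D => Fd D ∧ (D % 3 ≠ 1 ∧ D % 5 ≠ 1 ∧ D % 5 ≠ 4) ∧ Fin15 D) X) ∧
    -- (b) `3` inert, `5` split
    (Tendsto (fun X : ℕ => (cnt (fun D => Fd D ∧ D % 3 = 1 ∧ (D % 5 = 1 ∨ D % 5 = 4)) X : ℝ) /
        cnt Fd X) atTop (𝓝 (15 / 96)) ∧
      ∀ ε : ℝ, 0 < ε → ∀ᶠ X : ℕ in atTop,
        ((∏' i : ℕ, (1 - (1 / 2 : ℝ) ^ (i + 1))) - ε) *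
            cnt (fun D => Fd D ∧ D % 3 = 1 ∧ (D % 5 = 1 ∨ D % 5 = 4)) X ≤
          cnt (fun D => Fd D ∧ (D % 3 = 1 ∧ (D % 5 = 1 ∨ D % 5 = 4)) ∧ Fin15 D) X) ∧
    -- all imaginary quadratic fields
    (∀ ε : ℝ, 0 < ε → ∀ᶠ X : ℕ in atTop,
      (25 / 48 * (∏' i : ℕ, (1 - (1 / 2 : ℝ) ^ (i + 1))) - ε) * cnt Fd X ≤
        cnt (fun D => Fd D ∧ Fin15 D) X) ∧
    (∀ᶠ X : ℕ in atTop, (0.15 : ℝ) * cnt Fd X ≤ cnt (fun D => Fd D ∧ Fin15 D) X) := by
  refine ⟨⟨share_a, fun ε hε => low_a hε⟩, ⟨share_b, fun ε hε => low_b dqz hε⟩, fun ε hε => ?_, ?_⟩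
  · exact low_ab dqz (by unfold Pool.Agent.N916.GB.eta; linarith)
  · refine low_ab dqz ?_
    have := Pool.Agent.N916.GB.eta_bounds.1
    norm_num
    linarith

end Pool.Agent.Results.MP_87c685_nt.X015Density
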